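import Pool.Agent.U762.EE.Stm

set_option autoImplicit false

/-!
# Project EE (helper762), package ANAt: exponential decay of the potential with a given exponent

Adapted from `Pool/Agent/U111/RP/ANA.lean` and `Pool/Agent/U312/RP/ANAm.lean`.
-/

namespace Pool.Agent.U15.EE.ANAt

open Pool.Agent.U762.RP Pool.Agent.U762.EE Finset Filter

section

variable {d : ℕ} {m r : ℤ → ℤ} {w : ℤ → ℝ} {B : ℕ} {M : ℝ}

theorem Q_mono (hw : ∀ u, 0 ≤ w u) {F G : ℤ → ℝ} (h : ∀ x, F x ≤ G x) (x : ℤ) :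
    Q d m r w B M F x ≤ Q d m r w B M G x := by
  unfold Q
  split_ifs
  · exact le_rfl
  · exact Finset.sum_le_sum fun u _ => mul_le_mul_of_nonneg_left (h _) (hw u)

theorem Q_smul (a : ℝ) (F : ℤ → ℝ) :
    Q d m r w B M (fun x => a * F x) = fun x => a * Q d m r w B M F x := by
  funext x
  unfold Q
  split_ifs
  · rw [mul_zero]
  · rw [Finset.mul_sum]
    exact Finset.sum_congr rfl fun u _ => by ring

theorem Qi_mono (hw : ∀ u, 0 ≤ w u) (n : ℕ) : ∀ {F G : ℤ → ℝ}, (∀ x, F x ≤ G x) → ∀ x : ℤ,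
    (Q d m r w B M)^[n] F x ≤ (Q d m r w B M)^[n] G x := by
  induction n with
  | zero => intro F G h x; exact h x
  | succ n ih =>
    intro F G h x
    rw [Function.iterate_succ_apply, Function.iterate_succ_apply]
    exact ih (Q_mono hw h) x

theorem Qi_smul (a : ℝ) (n : ℕ) : ∀ F : ℤ → ℝ,
    (Q d m r w B M)^[n] (fun x => a * F x) = fun x => a * (Q d m r w B M)^[n] F x := by
  induction n with
  | zero => intro F; rfl
  | succ n ih =>
    intro F
    rw [Function.iterate_succ_apply, Q_smul, ih]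
    rfl

end

theorem V_nonneg (M θ : ℝ) (x : ℤ) : 0 ≤ V M θ x := by
  unfold V
  split_ifs
  · exact le_rfl
  · positivity

theorem t_ANAt : S_REC → S_WC → S_ANAt := by
  intro hR hW d m r hrel θ η hθ0 hθ1 hη0 hsum ε hε0 hε1 hfac
  have hd2 := hrel.two_le
  have hd0 : (0 : ℝ) < d := by
    have : 0 < d := by omega
    exact_mod_cast this
  have hne : (range d).Nonempty := ⟨0, mem_range.2 (by omega)⟩
  have hfpos : ∀ j ∈ range d, 0 < fac d m η j ^ θ := by
    intro j hj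
    apply Real.rpow_pos_of_pos
    unfold fac
    have h1 := hrel.pos (j : ℤ) (Int.natCast_nonneg j) (by exact_mod_cast mem_range.1 hj)
    have h2 : (0 : ℝ) < (m (j : ℤ) : ℝ) := by exact_mod_cast h1
    positivity
  obtain ⟨j₀, hj₀, hmax⟩ := Finset.exists_max_image (range d) (fun j => fac d m η j ^ θ) hne
  obtain ⟨R, hRdef⟩ : ∃ R, R = fac d m η j₀ ^ θ := ⟨_, rfl⟩
  have hR0 : 0 < R := by rw [hRdef]; exact hfpos j₀ hj₀
  have hRle : ∀ j ∈ range d, fac d m η j ^ θ ≤ R := by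
    intro j hj
    rw [hRdef]
    exact hmax j hj
  have hR1 : (1 - ε) * R < 1 := by rw [hRdef]; exact hfac j₀ hj₀
  obtain ⟨ρ, hρdef⟩ : ∃ ρ, ρ = (∑ j ∈ range d, fac d m η j ^ θ) / d := ⟨_, rfl⟩
  have hρ0 : 0 ≤ ρ := by
    rw [hρdef]
    exact div_nonneg (Finset.sum_nonneg fun j hj => (hfpos j hj).le) hd0.le
  have hρ1 : ρ < 1 := by
    rw [hρdef, div_lt_one hd0]
    exact hsum
  have hg := hR ε R ρ hε0 hε1 hR0 hρ0 hρ1 hR1
  obtain ⟨K, hK1, hKg⟩ : ∃ K : ℕ, 1 ≤ K ∧ g ε R ρ K ≤ 1 / 2 := by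
    have h1 : ∀ᶠ k in atTop, g ε R ρ k < 1 / 2 := hg.eventually_lt_const (by norm_num)
    obtain ⟨K, hK⟩ := ((eventually_ge_atTop 1).and h1).exists
    exact ⟨K, hK.1, hK.2.le⟩
  refine ⟨K, fun B hB => ?_⟩
  obtain ⟨M₀, hM₀, hW'⟩ := hW d m r hrel θ η hθ0 hθ1 hη0 B
  obtain ⟨C₀, hC₀, hCg⟩ : ∃ C₀ : ℝ, 0 < C₀ ∧ ∀ s, s < K → g ε R ρ s ≤ C₀ := by
    refine ⟨(∑ s ∈ range K, |g ε R ρ s|) + 1, ?_, fun s hs => ?_⟩
    · have : 0 ≤ ∑ s ∈ range K, |g ε R ρ s| := Finset.sum_nonneg fun _ _ => abs_nonneg _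
      linarith
    · have h1 : |g ε R ρ s| ≤ ∑ s ∈ range K, |g ε R ρ s| :=
        Finset.single_le_sum (f := fun s => |g ε R ρ s|) (fun _ _ => abs_nonneg _) (mem_range.2 hs)
      have h2 := le_abs_self (g ε R ρ s)
      linarith
  have hKr : (0 : ℝ) < K := by exact_mod_cast hK1
  obtain ⟨lam, hlam⟩ : ∃ lam : ℝ, lam = (1 / 2 : ℝ) ^ (1 / (K : ℝ)) := ⟨_, rfl⟩
  have hlam0 : 0 < lam := by rw [hlam]; positivity
  have hlam1 : lam < 1 := by
    rw [hlam]
    exact Real.rpow_lt_one (by norm_num) (by norm_num) (by positivity)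
  have hlamK : lam ^ K = 1 / 2 := by
    rw [hlam, ← Real.rpow_natCast, ← Real.rpow_mul (by norm_num), one_div_mul_cancel hKr.ne',
      Real.rpow_one]
  refine ⟨M₀, 2 * C₀, lam, hM₀, by positivity, hlam0, hlam1, ?_⟩
  intro M hM w hw hw1 hwε L x
  have hQ : ∀ k : ℕ, k ≤ K + 1 → ∀ x : ℤ, (Q d m r w B M)^[k] (V M θ) x ≤
      g ε R ρ k * V M θ x := by
    intro k hk x
    by_cases hx : |(x : ℝ)| < M
    · have hV : V M θ x = 0 := by unfold V; rw [if_pos hx]
      rw [hV, mul_zero]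
      cases k with
      | zero => rw [Function.iterate_zero_apply, hV]
      | succ k =>
        rw [Function.iterate_succ_apply']
        unfold Q
        rw [if_pos hx]
    · have hV : V M θ x = |(x : ℝ)| ^ θ := by unfold V; rw [if_neg hx]
      rw [hV, hρdef]
      exact hW' M hM w hw hw1 ε R K hε0 hε1 hB hRle hwε k hk x
  have hQK : ∀ x : ℤ, (Q d m r w B M)^[K] (V M θ) x ≤ 1 / 2 * V M θ x := fun x =>
    (hQ K (by omega) x).trans (mul_le_mul_of_nonneg_right hKg (V_nonneg M θ x))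
  have hQn : ∀ (n : ℕ) (x : ℤ), (Q d m r w B M)^[K * n] (V M θ) x ≤
      (1 / 2) ^ n * V M θ x := by
    intro n
    induction n with
    | zero => intro x; simp
    | succ n ih =>
      intro x
      rw [Nat.mul_succ, Function.iterate_add_apply]
      calc (Q d m r w B M)^[K * n] ((Q d m r w B M)^[K] (V M θ)) x ≤
          (Q d m r w B M)^[K * n] (fun x => 1 / 2 * V M θ x) x := Qi_mono hw _ hQK x
        _ = 1 / 2 * (Q d m r w B M)^[K * n] (V M θ) x := by rw [Qi_smul]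
        _ ≤ 1 / 2 * ((1 / 2) ^ n * V M θ x) :=
            mul_le_mul_of_nonneg_left (ih x) (by norm_num)
        _ = _ := by ring
  have hL := Nat.div_add_mod L K
  have hs : L % K < K := Nat.mod_lt _ (by omega)
  obtain ⟨n, hn⟩ : ∃ n, n = L / K := ⟨_, rfl⟩
  obtain ⟨s, hsdef⟩ : ∃ s, s = L % K := ⟨_, rfl⟩
  rw [← hn, ← hsdef] at hL
  rw [← hsdef] at hs
  have hV := V_nonneg M θ x
  have hfin : (Q d m r w B M)^[L] (V M θ) x ≤ C₀ * ((1 / 2) ^ n * V M θ x) := by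
    rw [← hL, Function.iterate_add_apply]
    calc (Q d m r w B M)^[K * n] ((Q d m r w B M)^[s] (V M θ)) x ≤
        (Q d m r w B M)^[K * n] (fun x => C₀ * V M θ x) x := Qi_mono hw _ (fun y =>
          (hQ s (by omega) y).trans (mul_le_mul_of_nonneg_right (hCg s hs) (V_nonneg M θ y))) x
      _ = C₀ * (Q d m r w B M)^[K * n] (V M θ) x := by rw [Qi_smul]
      _ ≤ _ := mul_le_mul_of_nonneg_left (hQn n x) hC₀.le
  refine hfin.trans ?_
  have h1 : lam ^ L = (1 / 2) ^ n * lam ^ s := by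
    rw [← hL, pow_add, pow_mul, hlamK]
  have h2 : 1 / 2 ≤ lam ^ s := by
    rw [← hlamK]
    exact pow_le_pow_of_le_one hlam0.le hlam1.le hs.le
  rw [h1]
  have h3 : (0 : ℝ) < (1 / 2) ^ n := by positivity
  calc C₀ * ((1 / 2) ^ n * V M θ x) = 2 * C₀ * ((1 / 2) ^ n * (1 / 2)) * V M θ x := by ring
    _ ≤ 2 * C₀ * ((1 / 2) ^ n * lam ^ s) * V M θ x := by
        refine mul_le_mul_of_nonneg_right ?_ hV
        exact mul_le_mul_of_nonneg_left (mul_le_mul_of_nonneg_left h2 h3.le) (by positivity)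

end Pool.Agent.U15.EE.ANAt
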